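import Mathlib
import Pool.Agent.V1184.SymPow.Coord

/-!
# The initial degree of the symbolic powers of `n+3` points of `ℙ^n` in linearly general position

For odd `n`, every set `Z` of `n+3` points of `ℙ^n` in linearly general position and every `k ≥ 1`,
`α(I_Z^{(k)}) = ⌈(n+1)(n+3)k / (n²+2n-1)⌉`.

`Pool.Agent.V1184.SymPow.pointIdeal p` is the ideal generated by the homogeneous polynomials
vanishing at `p`, i.e. the homogeneous prime ideal of the point with homogeneous coordinates `p`.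
-/

namespace Pool.Agent.Results.MP_ec1cce_ag.InitialDegree

open MvPolynomial Pool.Agent.V1184.SymPow

/-- The `k`-th symbolic power `P_1^k ∩ ... ∩ P_s^k` of the ideal of a finite set of points of
projective space, where `P_i` is the homogeneous prime ideal of the `i`-th point. -/
noncomputable def symbolicPower {K : Type*} [Field K] {n : ℕ}
    (Z : Finset (Projectivization K (Fin (n + 1) → K))) (k : ℕ) :
    Ideal (MvPolynomial (Fin (n + 1)) K) :=
  ⨅ p ∈ Z, pointIdeal p.rep ^ k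

/-- `Z` is in linearly general position: no `n+1` of its points lie on a hyperplane
`∑ a_i x_i = 0`, `a ≠ 0`. -/
def LinearlyGeneral {K : Type*} [Field K] {n : ℕ}
    (Z : Finset (Projectivization K (Fin (n + 1) → K))) : Prop :=
  ∀ T ⊆ Z, T.card = n + 1 →
    ¬ ∃ a : Fin (n + 1) → K, a ≠ 0 ∧ ∀ p ∈ T, ∑ i, a i * p.rep i = 0

theorem result (K : Type*) [Field K] [CharZero K] (n : ℕ) (hn : Odd n)
    (Z : Finset (Projectivization K (Fin (n + 1) → K))) (hZ : Z.card = n + 3)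
    (hgen : LinearlyGeneral Z) (k : ℕ) (_hk : 1 ≤ k) :
    IsLeast {d : ℕ | ∃ F ∈ symbolicPower Z k, F ≠ 0 ∧ F.IsHomogeneous d}
      ⌈(((n : ℚ) + 1) * (n + 3) * k) / (n ^ 2 + 2 * n - 1)⌉₊ := by
  classical
  obtain ⟨l, rfl⟩ := hn
  have hcard : Fintype.card (Fin (2 * l + 1 + 1) ⊕ Fin 2) = Fintype.card Z := by
    rw [Fintype.card_sum, Fintype.card_fin, Fintype.card_fin, Fintype.card_coe, hZ]
  have e : (Fin (2 * l + 1 + 1) ⊕ Fin 2) ≃ Z := Fintype.equivOfCardEq hcard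
  set p : Fin (2 * l + 1 + 1) ⊕ Fin 2 → Fin (2 * l + 1 + 1) → K := fun a => (e a).1.rep with hp
  have hσ : Fintype.card (Fin (2 * l + 1 + 1)) = 2 * l + 2 := by simp
  have hgen' : ∀ T : Finset (Fin (2 * l + 1 + 1) ⊕ Fin 2),
      T.card = Fintype.card (Fin (2 * l + 1 + 1)) → ∀ a : Fin (2 * l + 1 + 1) → K,
      (∀ j ∈ T, ∑ i, a i * p j i = 0) → a = 0 := by
    intro T hT a ha
    by_contra hne
    apply hgen (T.map (e.toEmbedding.trans (Function.Embedding.subtype _))) ?_ ?_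
    · refine ⟨a, hne, ?_⟩
      intro q hq
      obtain ⟨j, hj, rfl⟩ := Finset.mem_map.1 hq
      exact ha j hj
    · intro q hq
      obtain ⟨j, hj, rfl⟩ := Finset.mem_map.1 hq
      exact (e j).2
    · rw [Finset.card_map, hT, Fintype.card_fin]
  obtain ⟨t, A, c, ht, hA, hc, hAc⟩ := exists_coord p hgen'
  have hAA : A * A⁻¹ = 1 := Matrix.mul_nonsing_inv A (isUnit_iff_ne_zero.2 hA)
  have hAA' : A⁻¹ * A = 1 := Matrix.nonsing_inv_mul A (isUnit_iff_ne_zero.2 hA)
  have hmem : ∀ F : MvPolynomial (Fin (2 * l + 1 + 1)) K,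
      F ∈ symbolicPower Z k ↔ ∀ a, F ∈ pointIdeal (p a) ^ k := by
    intro F
    rw [symbolicPower]
    simp only [Ideal.mem_iInf]
    constructor
    · intro h a
      exact h _ (e a).2
    · intro h q hq
      have := h (e.symm ⟨q, hq⟩)
      simpa [hp] using this
  have hset : {d : ℕ | ∃ F ∈ symbolicPower Z k, F ≠ 0 ∧ F.IsHomogeneous d} =
      Set.Ici ⌈((((2 * l + 1 : ℕ) : ℚ) + 1) * (((2 * l + 1 : ℕ) : ℚ) + 3) * k) /
        (((2 * l + 1 : ℕ) : ℚ) ^ 2 + 2 * ((2 * l + 1 : ℕ) : ℚ) - 1)⌉₊ := by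
    ext d
    rw [Set.mem_ofPred_eq, Set.mem_Ici, Nat.ceil_le]
    have hnum : ((((2 * l + 1 : ℕ) : ℚ) + 1) * (((2 * l + 1 : ℕ) : ℚ) + 3) * k) /
        (((2 * l + 1 : ℕ) : ℚ) ^ 2 + 2 * ((2 * l + 1 : ℕ) : ℚ) - 1) ≤ (d : ℚ) ↔
        k * ((l + 1) * (2 * l + 4)) ≤ d * (2 * l ^ 2 + 4 * l + 1) := by
      have hpos : (0 : ℚ) < ((2 * l + 1 : ℕ) : ℚ) ^ 2 + 2 * ((2 * l + 1 : ℕ) : ℚ) - 1 := by
        push_cast
        have : (0 : ℚ) ≤ l := by positivity
        nlinarith
      rw [div_le_iff₀ hpos, ← Nat.cast_le (α := ℚ)]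
      push_cast
      constructor <;> intro h <;> nlinarith
    rw [hnum]
    constructor
    · rintro ⟨F, hF, hF0, hFh⟩
      rw [hmem] at hF
      exact lower ht hσ (subst_ne_zero hAA hF0) (subst_isHomogeneous A hFh)
        (fun a => subst_mem A (hAc a) (hF a))
    · intro h
      obtain ⟨G, hG0, hGh, hG⟩ := upper ht hσ h
      refine ⟨subst A⁻¹ G, ?_, subst_ne_zero hAA' hG0, subst_isHomogeneous _ hGh⟩
      rw [hmem]
      intro a
      apply subst_mem A⁻¹ (c := (c a)⁻¹) _ (hG a)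
      have h1 := congrArg (fun v => A⁻¹.mulVec v) (hAc a)
      simp only [Matrix.mulVec_mulVec, hAA', Matrix.one_mulVec, Matrix.mulVec_smul] at h1
      rw [h1, smul_smul, inv_mul_cancel₀ (hc a), one_smul]
  rw [hset]
  exact isLeast_Ici

end Pool.Agent.Results.MP_ec1cce_ag.InitialDegree
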